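import Mathlib
import Pool.Agent.Lib.MP_612f91_an.Main

/-!
Every star isomorphism between support expansion algebras is spatially implemented.  No
assumption on the two measure spaces is needed, so finitely decomposable ones are covered.
-/

namespace Pool.Agent.Results.MP_612f91_an.Spatial

open MeasureTheory
open scoped ENNReal NNReal

/-- Size of the left support of `b` with respect to a family of projections `p i` of sizes `τ i`:
the infimum of `τ i` over all `i` with `p i * b = b`. -/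
noncomputable def suppSize {ι B : Type*} [Mul B] (p : ι → B) (τ : ι → ℝ≥0∞) (b : B) : ℝ≥0∞ :=
  ⨅ (i : ι) (_ : p i * b = b), τ i

/-- Bounded support expansion with respect to the family `p` with sizes `τ`. -/
def BddSuppExp {ι B : Type*} [Mul B] [Star B] (p : ι → B) (τ : ι → ℝ≥0∞) (a : B) : Prop :=
  ∃ l : ℝ≥0, ∀ i : ι,
    suppSize p τ (a * p i) ≤ l * τ i ∧ suppSize p τ (star a * p i) ≤ l * τ i

theorem result {X Y : Type*} [MeasurableSpace X] [MeasurableSpace Y]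
    (μ : Measure X) (ν : Measure Y) :
    ∃ (p : {A : Set X // MeasurableSet A} → Lp ℂ 2 μ →L[ℂ] Lp ℂ 2 μ)
      (q : {A : Set Y // MeasurableSet A} → Lp ℂ 2 ν →L[ℂ] Lp ℂ 2 ν)
      (C : StarSubalgebra ℂ (Lp ℂ 2 μ →L[ℂ] Lp ℂ 2 μ))
      (D : StarSubalgebra ℂ (Lp ℂ 2 ν →L[ℂ] Lp ℂ 2 ν)),
      (∀ A f, p A f =ᵐ[μ] A.1.indicator f) ∧ (∀ A f, q A f =ᵐ[ν] A.1.indicator f) ∧
      (∀ a, a ∈ C ↔ a ∈ closure {b | BddSuppExp p (fun A => μ A.1) b}) ∧
      (∀ a, a ∈ D ↔ a ∈ closure {b | BddSuppExp q (fun A => ν A.1) b}) ∧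
      ∀ Φ : C ≃⋆ₐ[ℂ] D, ∃ u : Lp ℂ 2 μ ≃ₗᵢ[ℂ] Lp ℂ 2 ν, ∀ (a : C) (g : Lp ℂ 2 ν),
        (Φ a).1 g = u (a.1 (u.symm g)) := by
  have key : ∀ {Z : Type _} [MeasurableSpace Z] (m : Measure Z),
      {b | BddSuppExp (fun A : {A : Set Z // MeasurableSet A} =>
        Lib.MP_612f91_an.proj m A.1 A.2) (fun A => m A.1) b}
        = {b | Lib.MP_612f91_an.BddSuppExp m b} := by
    intro Z _ m
    ext b
    simp only [BddSuppExp, suppSize, Lib.MP_612f91_an.BddSuppExp, Lib.MP_612f91_an.suppMeasure,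
      iInf_subtype, Subtype.forall]
  have key' : ∀ {Z : Type _} [MeasurableSpace Z] (m : Measure Z),
      {b | BddSuppExp (fun A : {A : Set Z // MeasurableSet A} =>
        Lib.MP_612f91_an.proj m A.1 A.2) (fun A => m A.1) b}
        = {b | Lib.MP_612f91_an.BddSuppExp m b} := by
    intro Z _ m
    ext b
    simp only [BddSuppExp, suppSize, Lib.MP_612f91_an.BddSuppExp, Lib.MP_612f91_an.suppMeasure,
      iInf_subtype, Subtype.forall]
  refine ⟨fun A => Lib.MP_612f91_an.proj μ A.1 A.2, fun A => Lib.MP_612f91_an.proj ν A.1 A.2,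
    Lib.MP_612f91_an.Cu μ, Lib.MP_612f91_an.Cu ν,
    fun A f => Lib.MP_612f91_an.coeFn_proj A.2 f, fun A f => Lib.MP_612f91_an.coeFn_proj A.2 f,
    fun a => ?_, fun a => ?_, fun Φ => ?_⟩
  · rw [key μ]; rfl
  · rw [key' ν]; rfl
  · obtain ⟨u, hu⟩ := Lib.MP_612f91_an.spatial (Lib.MP_612f91_an.total_Cu μ)
      (Lib.MP_612f91_an.total_Cu ν) Φ
    refine ⟨u, fun a g => ?_⟩
    have h := hu a (u.symm g)
    rw [u.apply_symm_apply] at h
    exact h

end Pool.Agent.Results.MP_612f91_an.Spatial
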